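import Pool.Agent.Helper9.TC.Defs

/-!
# Block G of the proof of MP_1181b9_nt: the abstract gap lemma

Points of a thin hyperbolic strip `X < x y < X + B` with even differences.
-/

set_option autoImplicit false
open Finset Real

namespace Pool.Agent.Helper42.TC

/-- A finite set of reals with even differences, all smaller than `L`, has at most `1 + L / 2`
elements. -/
theorem card_spaced (F : Finset ℝ) (L : ℝ) (hL : 0 < L)
    (hev : ∀ x ∈ F, ∀ y ∈ F, ∃ a : ℤ, y - x = 2 * a)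
    (hd : ∀ x ∈ F, ∀ y ∈ F, x < y → y - x < L) : (F.card : ℝ) ≤ 1 + L / 2 := by
  classical
  rcases F.eq_empty_or_nonempty with h | h
  · subst h
    simp only [Finset.card_empty, Nat.cast_zero]
    positivity
  · obtain ⟨m, hm, hmin⟩ := F.exists_min_image id h
    simp only [id] at hmin
    have hpos : ∀ x ∈ F, 0 ≤ (x - m) / 2 := fun x hx => by
      have := hmin x hx
      linarith
    have hcard : F.card ≤ (Finset.range (⌊L / 2⌋₊ + 1)).card := by
      apply Finset.card_le_card_of_injOn (fun x => ⌊(x - m) / 2⌋₊)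
      · intro x hx
        have hx' : x ∈ F := hx
        have h2 : (x - m) / 2 ≤ L / 2 := by
          rcases (hmin x hx').lt_or_eq with h3 | h3
          · have := hd m hm x hx' h3
            linarith
          · rw [← h3]
            simp only [sub_self, zero_div]
            positivity
        have h4 := Nat.floor_le_floor h2
        simp only [Finset.coe_range, Set.mem_Iio]
        omega
      · intro x hx y hy hxy
        have hx' : x ∈ F := hx
        have hy' : y ∈ F := hy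
        obtain ⟨a, ha⟩ := hev m hm x hx'
        obtain ⟨b, hb⟩ := hev m hm y hy'
        have h1 : (x - m) / 2 = a := by rw [ha]; ring
        have h2 : (y - m) / 2 = b := by rw [hb]; ring
        have h3 : (0 : ℤ) ≤ a := by
          have := hpos x hx'
          rw [h1] at this
          exact_mod_cast this
        have h4 : (0 : ℤ) ≤ b := by
          have := hpos y hy'
          rw [h2] at this
          exact_mod_cast this
        simp only [h1, h2] at hxy
        obtain ⟨a', rfl⟩ := Int.eq_ofNat_of_zero_le h3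
        obtain ⟨b', rfl⟩ := Int.eq_ofNat_of_zero_le h4
        simp only [Int.cast_natCast, Nat.floor_natCast] at hxy
        subst hxy
        linarith
    rw [Finset.card_range] at hcard
    have h1 : (F.card : ℝ) ≤ (⌊L / 2⌋₊ : ℝ) + 1 := by exact_mod_cast hcard
    have h2 : (⌊L / 2⌋₊ : ℝ) ≤ L / 2 := Nat.floor_le (by positivity)
    linarith

theorem sum_cube (N : ℕ) (hN : 1 ≤ N) :
    ∑ u ∈ Icc 1 N, 1 / (u : ℝ) ^ 3 ≤ 5 / 4 - 1 / (2 * (N : ℝ) * ((N : ℝ) + 1)) := by
  induction N, hN using Nat.le_induction with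
  | base => norm_num
  | succ N hN ih =>
    rw [Finset.sum_Icc_succ_top (by omega)]
    have hN' : (1 : ℝ) ≤ N := by exact_mod_cast hN
    have h1 : 1 / ((N + 1 : ℕ) : ℝ) ^ 3 ≤
        1 / (2 * (N : ℝ) * ((N : ℝ) + 1)) -
          1 / (2 * ((N + 1 : ℕ) : ℝ) * (((N + 1 : ℕ) : ℝ) + 1)) := by
      push_cast
      have h2 : (1 : ℝ) / (2 * (N : ℝ) * ((N : ℝ) + 1)) -
          1 / (2 * ((N : ℝ) + 1) * ((N : ℝ) + 1 + 1)) =
          1 / ((N : ℝ) * (N + 1) * (N + 2)) := by
        field_simp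
        ring
      rw [h2]
      apply one_div_le_one_div_of_le
      · positivity
      · nlinarith
    linarith

theorem sum_inv (u M : ℕ) (hu : 1 ≤ u) (h : u ≤ M) :
    ∑ v ∈ Icc u M, 1 / (v : ℝ) ≤ 1 / u + log (M / u) := by
  have hu' : (0 : ℝ) < u := by exact_mod_cast hu
  induction M, h using Nat.le_induction with
  | base =>
    simp only [Finset.Icc_self, Finset.sum_singleton]
    rw [div_self hu'.ne']
    simp
  | succ M hM ih =>
    rw [Finset.sum_Icc_succ_top (by omega)]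
    have hM' : (0 : ℝ) < M := lt_of_lt_of_le hu' (by exact_mod_cast hM)
    have h1 : 1 - (((M + 1 : ℕ) : ℝ) / M)⁻¹ ≤ log (((M + 1 : ℕ) : ℝ) / M) :=
      Real.one_sub_inv_le_log_of_pos (by positivity)
    have h2 : 1 - (((M + 1 : ℕ) : ℝ) / M)⁻¹ = 1 / ((M + 1 : ℕ) : ℝ) := by
      push_cast
      field_simp
      ring
    have h3 : log (((M + 1 : ℕ) : ℝ) / u) = log (M / u) + log (((M + 1 : ℕ) : ℝ) / M) := by
      rw [← Real.log_mul (by positivity) (by positivity)]
      congr 1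
      field_simp
    rw [h3]
    linarith

theorem sum_log (N : ℕ) (x : ℝ) (hx : 0 < x) : ∑ u ∈ Icc 1 N, log (x / u) ≤ x := by
  have h1 : ∑ u ∈ Icc 1 N, log (x / u) = log (x ^ N / N.factorial) := by
    induction N with
    | zero => simp
    | succ N ih =>
      rw [Finset.sum_Icc_succ_top (by omega), ih, ← Real.log_mul (by positivity) (by positivity)]
      congr 1
      rw [Nat.factorial_succ, pow_succ]
      push_cast
      have := N.factorial_pos
      field_simp
  rw [h1]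
  have h2 := Real.pow_div_factorial_le_exp x hx.le N
  have h3 := Real.log_le_log (by positivity) h2
  rwa [Real.log_exp] at h3

theorem W_sum (R B : ℝ) (hR : 2 ≤ R) (hB : 0 < B) :
    ∑ u ∈ Icc 1 ⌊R / 2⌋₊, ∑ v ∈ Icc u ⌊R ^ 4 / (16 * (u : ℝ) ^ 3)⌋₊, (1 + B / (4 * (v : ℝ))) ≤
      5 / 64 * R ^ 4 + B / 2 * (R + 1 / 2 + 1 / 2 * Real.log R) := by
  have hN : 1 ≤ ⌊R / 2⌋₊ := by
    rw [Nat.one_le_floor_iff]
    linarith
  have key : ∀ u ∈ Icc 1 ⌊R / 2⌋₊,
      ∑ v ∈ Icc u ⌊R ^ 4 / (16 * (u : ℝ) ^ 3)⌋₊, (1 + B / (4 * (v : ℝ))) ≤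
        R ^ 4 / 16 * (1 / (u : ℝ) ^ 3) + B / 4 * (1 / (u : ℝ) + 4 * log (R / 2 / u)) := by
    intro u hu
    rw [Finset.mem_Icc] at hu
    obtain ⟨hu1, hu2⟩ := hu
    have hu' : (1 : ℝ) ≤ u := by exact_mod_cast hu1
    have hu2' : (u : ℝ) ≤ R / 2 := le_trans (by exact_mod_cast hu2) (Nat.floor_le (by linarith))
    set M := ⌊R ^ 4 / (16 * (u : ℝ) ^ 3)⌋₊ with hM
    have hM1 : (M : ℝ) ≤ R ^ 4 / (16 * (u : ℝ) ^ 3) := Nat.floor_le (by positivity)
    have huM : u ≤ M := by
      rw [hM, Nat.le_floor_iff (by positivity), le_div_iff₀ (by positivity)]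
      have h5 : (2 * (u : ℝ)) ^ 4 ≤ R ^ 4 := by
        apply pow_le_pow_left₀ (by positivity)
        linarith
      nlinarith
    rw [Finset.sum_add_distrib]
    have h1 : ∑ v ∈ Icc u M, (1 : ℝ) ≤ R ^ 4 / 16 * (1 / (u : ℝ) ^ 3) := by
      rw [Finset.sum_const, Nat.card_Icc, nsmul_eq_mul, mul_one]
      have h6 : ((M + 1 - u : ℕ) : ℝ) ≤ M := by exact_mod_cast (by omega : M + 1 - u ≤ M)
      refine h6.trans (hM1.trans (le_of_eq ?_))
      field_simp
    have h2 : ∑ v ∈ Icc u M, B / (4 * (v : ℝ)) = B / 4 * ∑ v ∈ Icc u M, 1 / (v : ℝ) := by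
      rw [Finset.mul_sum]
      refine Finset.sum_congr rfl fun v _ => ?_
      rw [div_mul_div_comm, mul_one]
    have h3 := sum_inv u M hu1 huM
    have h4 : log (M / u) ≤ 4 * log (R / 2 / u) := by
      have h7 : (4 : ℝ) * log (R / 2 / u) = log ((R / 2 / u) ^ 4) := by
        rw [Real.log_pow]
        norm_num
      rw [h7]
      have hMpos : (0 : ℝ) < M := lt_of_lt_of_le (by linarith) (by exact_mod_cast huM : (u : ℝ) ≤ M)
      apply Real.log_le_log (by positivity)
      calc (M : ℝ) / u ≤ R ^ 4 / (16 * (u : ℝ) ^ 3) / u := by gcongr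
        _ = (R / 2 / u) ^ 4 := by
          field_simp
          norm_num
    rw [h2]
    have h8 : B / 4 * ∑ v ∈ Icc u M, 1 / (v : ℝ) ≤
        B / 4 * (1 / (u : ℝ) + 4 * log (R / 2 / u)) := by
      gcongr
      linarith
    linarith
  refine (Finset.sum_le_sum key).trans ?_
  rw [Finset.sum_add_distrib, ← Finset.mul_sum, ← Finset.mul_sum, Finset.sum_add_distrib,
    ← Finset.mul_sum]
  have h1 : ∑ u ∈ Icc 1 ⌊R / 2⌋₊, 1 / (u : ℝ) ^ 3 ≤ 5 / 4 := by
    have := sum_cube _ hN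
    have h2 : (0 : ℝ) ≤ 1 / (2 * (⌊R / 2⌋₊ : ℝ) * ((⌊R / 2⌋₊ : ℝ) + 1)) := by positivity
    linarith
  have h2 : ∑ u ∈ Icc 1 ⌊R / 2⌋₊, 1 / (u : ℝ) ≤ 1 + log R := by
    have h3 := sum_inv 1 _ le_rfl hN
    have h4 : log ((⌊R / 2⌋₊ : ℝ) / ((1 : ℕ) : ℝ)) ≤ log R := by
      have hN' : (1 : ℝ) ≤ (⌊R / 2⌋₊ : ℝ) := by exact_mod_cast hN
      apply Real.log_le_log
      · simp only [Nat.cast_one, div_one]
        linarith
      · simp only [Nat.cast_one, div_one]
        have := Nat.floor_le (by linarith : (0 : ℝ) ≤ R / 2)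
        linarith
    simp only [Nat.cast_one, div_one] at h3 h4
    linarith
  have h3 : ∑ u ∈ Icc 1 ⌊R / 2⌋₊, log (R / 2 / u) ≤ R / 2 := sum_log _ _ (by linarith)
  have h4 : B / 4 * (∑ u ∈ Icc 1 ⌊R / 2⌋₊, 1 / (u : ℝ) +
      4 * ∑ u ∈ Icc 1 ⌊R / 2⌋₊, log (R / 2 / u)) ≤ B / 4 * ((1 + log R) + 4 * (R / 2)) := by
    gcongr
  have h5 : R ^ 4 / 16 * ∑ u ∈ Icc 1 ⌊R / 2⌋₊, 1 / (u : ℝ) ^ 3 ≤ R ^ 4 / 16 * (5 / 4) := by
    gcongr
  have h6 : B / 4 * ((1 + log R) + 4 * (R / 2)) = B / 2 * (R + 1 / 2 + 1 / 2 * Real.log R) := by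
    ring
  linarith

/-- The analysis of one gap `(x, y) → (x + a, y - b)` of type II. -/
theorem gap_pair (x y x' y' X B x₂ τ R : ℝ) (hX : 0 < X) (hB : 0 < B) (hτ : 0 < τ)
    (hx₂ : 0 < x₂) (hxx : x < x')
    (hs : X < x * y ∧ x * y < X + B) (hs' : X < x' * y' ∧ x' * y' < X + B)
    (hx : B ≤ x) (hx' : x' ≤ x₂)
    (h1 : 2 * τ * √x₂ * (x₂ ^ 2 - X) ≤ x₂ ^ 2)
    (h2 : 400 * τ ^ 2 ≤ B) (h3 : 100 * B ≤ X) (h4 : 400 * B * √x₂ ≤ τ * X)
    (hR4 : 17 * τ ^ 4 * X ≤ R ^ 4) (hII : √x' - √x < τ) :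
    (x' - x) - 2 < y - y' ∧ (x' - x) ^ 3 * (y - y') ≤ R ^ 4 := by
  have hx0 : 0 < x := lt_of_lt_of_le hB hx
  have hx'0 : 0 < x' := hx0.trans hxx
  set s := √x with hs_def
  set s' := √x' with hs'_def
  set s₂ := √x₂ with hs₂_def
  have hs0 : 0 < s := Real.sqrt_pos.2 hx0
  have hs'0 : 0 < s' := Real.sqrt_pos.2 hx'0
  have hs₂0 : 0 < s₂ := Real.sqrt_pos.2 hx₂
  have hss : s ^ 2 = x := Real.sq_sqrt hx0.le
  have hss' : s' ^ 2 = x' := Real.sq_sqrt hx'0.le
  have hss₂ : s₂ ^ 2 = x₂ := Real.sq_sqrt hx₂.le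
  have hlt : s < s' := Real.sqrt_lt_sqrt hx0.le hxx
  have hle2 : s' ≤ s₂ := Real.sqrt_le_sqrt hx'
  have hs20 : 20 * τ ≤ s := by
    apply le_of_sq_le_sq _ hs0.le
    have e1 : (20 * τ) ^ 2 = 400 * τ ^ 2 := by ring
    linarith
  obtain ⟨a, ha⟩ : ∃ a, a = x' - x := ⟨_, rfl⟩
  obtain ⟨b, hb⟩ : ∃ b, b = y - y' := ⟨_, rfl⟩
  rw [← ha, ← hb]
  have ha0 : 0 < a := by linarith
  have haσ : a = (s' - s) * (s' + s) := by
    rw [ha, ← hss, ← hss']
    ring
  have ha1 : a ≤ τ * (s' + s) := by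
    rw [haσ]
    apply mul_le_mul_of_nonneg_right hII.le
    positivity
  have hxx0 : 0 < x * x' := mul_pos hx0 hx'0
  have hstar : b * (x * x') = a * (x * y) - (x' * y' - x * y) * x := by
    rw [ha, hb]
    ring
  have hD1 : x' * y' - x * y < B := by linarith [hs'.2, hs.1]
  have hD2 : -B < x' * y' - x * y := by linarith [hs'.1, hs.2]
  constructor
  · -- `a - 2 < b`
    have h5 : a * X - B * x < b * (x * x') := by
      rw [hstar]
      have h6 := mul_lt_mul_of_pos_left hs.1 ha0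
      have h7 := mul_lt_mul_of_pos_right hD1 hx0
      linarith
    have h6 : a * (x * x' - X) ≤ x * x' := by
      rcases le_or_gt (x * x') X with h | h
      · have : a * (x * x' - X) ≤ 0 := mul_nonpos_of_nonneg_of_nonpos ha0.le (by linarith)
        linarith
      · have h7 : x * x' ≤ x₂ ^ 2 := by
          rw [sq]
          exact mul_le_mul (by linarith) hx' hx'0.le hx₂.le
        have h8 : a * (x₂ ^ 2 - X) ≤ x₂ ^ 2 := by
          refine le_trans (mul_le_mul_of_nonneg_right (?_ : a ≤ 2 * τ * s₂) (by linarith)) h1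
          refine ha1.trans ?_
          have : τ * (s' + s) ≤ τ * (s₂ + s₂) :=
            mul_le_mul_of_nonneg_left (by linarith) hτ.le
          linarith
        have h9 : 0 < x₂ ^ 2 := by positivity
        have h10 : a * (x * x' - X) * x₂ ^ 2 ≤ (x * x') * x₂ ^ 2 := by
          have h11 : (x * x' - X) * x₂ ^ 2 ≤ (x₂ ^ 2 - X) * (x * x') := by
            have e1 := mul_le_mul_of_nonneg_left h7 hX.le
            have e2 : (x * x' - X) * x₂ ^ 2 = x * x' * x₂ ^ 2 - X * x₂ ^ 2 := by ring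
            have e3 : (x₂ ^ 2 - X) * (x * x') = x * x' * x₂ ^ 2 - X * (x * x') := by ring
            linarith
          calc a * (x * x' - X) * x₂ ^ 2 = a * ((x * x' - X) * x₂ ^ 2) := by ring
            _ ≤ a * ((x₂ ^ 2 - X) * (x * x')) := mul_le_mul_of_nonneg_left h11 ha0.le
            _ = (a * (x₂ ^ 2 - X)) * (x * x') := by ring
            _ ≤ x₂ ^ 2 * (x * x') := mul_le_mul_of_nonneg_right h8 hxx0.le
            _ = (x * x') * x₂ ^ 2 := by ring
        exact le_of_mul_le_mul_right h10 h9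
    have h7 : B * x ≤ x * x' := by
      rw [mul_comm x x']
      exact mul_le_mul_of_nonneg_right (by linarith) hx0.le
    have h8 : (a - 2) * (x * x') < b * (x * x') := by
      have e1 : (a - 2) * (x * x') = a * (x * x' - X) + a * X - 2 * (x * x') := by ring
      linarith
    exact lt_of_mul_lt_mul_right h8 hxx0.le
  · -- `a ^ 3 * b ≤ R ^ 4`
    have hσ0 : 0 < s' + s := by positivity
    have hσ2 : (s' + s) ^ 2 ≤ 4.01 * (s * s') := by
      have h5 : (s' - s) ^ 2 ≤ 0.01 * (s * s') := by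
        have h6 : (s' - s) ≤ s / 20 := by linarith
        have h7 : (s' - s) ^ 2 ≤ (s / 20) ^ 2 := pow_le_pow_left₀ (by linarith) h6 2
        have e1 : s * s ≤ s * s' := mul_le_mul_of_nonneg_left hlt.le hs0.le
        have e2 : (s / 20) ^ 2 = s * s / 400 := by ring
        have e3 : 0 < s * s := mul_pos hs0 hs0
        linarith
      have e4 : (s' + s) ^ 2 = (s' - s) ^ 2 + 4 * (s * s') := by ring
      linarith
    have h5 : b * (x * x') < a * (X + B) + B * x := by
      rw [hstar]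
      have h6 := mul_lt_mul_of_pos_left hs.2 ha0
      have h7 := mul_lt_mul_of_pos_right hD2 hx0
      linarith
    have h6 : a ^ 3 * b * (x * x') ≤ a ^ 4 * (X + B) + a ^ 3 * (B * x) := by
      have h7 : 0 < a ^ 3 := by positivity
      calc a ^ 3 * b * (x * x') = a ^ 3 * (b * (x * x')) := by ring
        _ ≤ a ^ 3 * (a * (X + B) + B * x) := mul_le_mul_of_nonneg_left h5.le h7.le
        _ = a ^ 4 * (X + B) + a ^ 3 * (B * x) := by ring
    have hxx' : x * x' = (s * s') ^ 2 := by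
      rw [← hss, ← hss']
      ring
    have h7 : a ^ 4 ≤ τ ^ 4 * (4.01 ^ 2 * (x * x')) := by
      calc a ^ 4 ≤ (τ * (s' + s)) ^ 4 := pow_le_pow_left₀ ha0.le ha1 4
        _ = τ ^ 4 * ((s' + s) ^ 2) ^ 2 := by ring
        _ ≤ τ ^ 4 * (4.01 * (s * s')) ^ 2 := by
          apply mul_le_mul_of_nonneg_left _ (by positivity)
          exact pow_le_pow_left₀ (by positivity) hσ2 2
        _ = τ ^ 4 * (4.01 ^ 2 * (x * x')) := by
          rw [hxx']
          ring
    have h8 : a ^ 3 ≤ τ ^ 3 * (8.02 * (s * s' ^ 2)) := by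
      calc a ^ 3 ≤ (τ * (s' + s)) ^ 3 := pow_le_pow_left₀ ha0.le ha1 3
        _ = τ ^ 3 * ((s' + s) ^ 2 * (s' + s)) := by ring
        _ ≤ τ ^ 3 * ((4.01 * (s * s')) * (2 * s')) := by
          apply mul_le_mul_of_nonneg_left _ (by positivity)
          exact mul_le_mul hσ2 (by linarith) hσ0.le (by positivity)
        _ = τ ^ 3 * (8.02 * (s * s' ^ 2)) := by ring
    have h9 : a ^ 3 * (B * x) ≤ 0.03 * τ ^ 4 * X * (x * x') := by
      calc a ^ 3 * (B * x) ≤ τ ^ 3 * (8.02 * (s * s' ^ 2)) * (B * x) := by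
            apply mul_le_mul_of_nonneg_right h8 (by positivity)
        _ = 8.02 * τ ^ 3 * (x * x') * (B * s) := by
            rw [hss']
            ring
        _ ≤ 8.02 * τ ^ 3 * (x * x') * (τ * X / 400) := by
            apply mul_le_mul_of_nonneg_left _ (by positivity)
            have h10 : B * s ≤ B * s₂ := mul_le_mul_of_nonneg_left (by linarith) hB.le
            linarith
        _ ≤ 0.03 * τ ^ 4 * X * (x * x') := by
            have h11 : 0 < τ ^ 4 * X * (x * x') := by positivity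
            have e1 : 8.02 * τ ^ 3 * (x * x') * (τ * X / 400) =
              8.02 / 400 * (τ ^ 4 * X * (x * x')) := by ring
            have e2 : 0.03 * τ ^ 4 * X * (x * x') = 0.03 * (τ ^ 4 * X * (x * x')) := by ring
            rw [e1, e2]
            exact mul_le_mul_of_nonneg_right (by norm_num) h11.le
    have h10 : a ^ 4 * (X + B) ≤ 16.3 * τ ^ 4 * X * (x * x') := by
      calc a ^ 4 * (X + B) ≤ τ ^ 4 * (4.01 ^ 2 * (x * x')) * (1.01 * X) := by
            apply mul_le_mul h7 (by linarith) (by positivity) (by positivity)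
        _ ≤ 16.3 * τ ^ 4 * X * (x * x') := by
            have h11 : 0 < τ ^ 4 * X * (x * x') := by positivity
            have e1 : τ ^ 4 * (4.01 ^ 2 * (x * x')) * (1.01 * X) =
              4.01 ^ 2 * 1.01 * (τ ^ 4 * X * (x * x')) := by ring
            have e2 : 16.3 * τ ^ 4 * X * (x * x') = 16.3 * (τ ^ 4 * X * (x * x')) := by ring
            rw [e1, e2]
            exact mul_le_mul_of_nonneg_right (by norm_num) h11.le
    have h11 : a ^ 3 * b * (x * x') ≤ R ^ 4 * (x * x') := by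
      have h12 : 17 * τ ^ 4 * X * (x * x') ≤ R ^ 4 * (x * x') :=
        mul_le_mul_of_nonneg_right hR4 hxx0.le
      have h13 : 0 < τ ^ 4 * X * (x * x') := by positivity
      have e1 : 17 * τ ^ 4 * X * (x * x') = 17 * (τ ^ 4 * X * (x * x')) := by ring
      have e2 : 16.3 * τ ^ 4 * X * (x * x') = 16.3 * (τ ^ 4 * X * (x * x')) := by ring
      have e3 : 0.03 * τ ^ 4 * X * (x * x') = 0.03 * (τ ^ 4 * X * (x * x')) := by ring
      rw [e1] at h12
      rw [e2] at h10
      rw [e3] at h9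
      linarith
    exact le_of_mul_le_mul_right h11 hxx0

/-- Two gaps with the same differences `(a, b)` start at points with `x`-distance `< B / b`. -/
theorem gap_same (x y x' y' w z w' z' a b X B : ℝ) (ha : 0 < a) (hb : 0 < b)
    (hx0 : 0 < x) (hxw : x < w)
    (e1 : x' - x = a) (e2 : w' - w = a) (e3 : y - y' = b) (e4 : z - z' = b)
    (hs : X < x * y ∧ x * y < X + B) (hs' : X < x' * y' ∧ x' * y' < X + B)
    (ht : X < w * z ∧ w * z < X + B) (ht' : X < w' * z' ∧ w' * z' < X + B) :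
    w - x < B / b := by
  rw [lt_div_iff₀ hb]
  obtain rfl : x' = x + a := by linarith
  obtain rfl : w' = w + a := by linarith
  obtain rfl : y' = y - b := by linarith
  obtain rfl : z' = z - b := by linarith
  have hw0 : 0 < w := hx0.trans hxw
  have h1 : b * (x * (x + a)) = a * (x * y) - ((x + a) * (y - b) - x * y) * x := by ring
  have h2 : b * (w * (w + a)) = a * (w * z) - ((w + a) * (z - b) - w * z) * w := by ring
  have h3 : (w - x) * b * (x + w + a) < B * (x + w + a) := by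
    have h4 : (w - x) * b * (x + w + a) = b * (w * (w + a)) - b * (x * (x + a)) := by ring
    rw [h4, h1, h2]
    have h5 : a * (w * z - x * y) < a * B := mul_lt_mul_of_pos_left (by linarith [ht.2, hs.1]) ha
    have h6 : -B * w < ((w + a) * (z - b) - w * z) * w :=
      mul_lt_mul_of_pos_right (by linarith [ht'.1, ht.2]) hw0
    have h7 : ((x + a) * (y - b) - x * y) * x < B * x :=
      mul_lt_mul_of_pos_right (by linarith [hs'.2, hs.1]) hx0
    have e1 : B * (x + w + a) = B * x - -B * w + a * B := by ring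
    have e2 : a * (w * z) - ((w + a) * (z - b) - w * z) * w -
        (a * (x * y) - ((x + a) * (y - b) - x * y) * x) =
        a * (w * z - x * y) - ((w + a) * (z - b) - w * z) * w +
          ((x + a) * (y - b) - x * y) * x := by ring
    rw [e1, e2]
    linarith
  exact lt_of_mul_lt_mul_right h3 (by linarith)

/-- The gap lemma for a sequence of points sorted by `x`. -/
theorem gap_seq (k : ℕ) (x y : ℕ → ℝ) (X B x₂ τ R : ℝ) (hX : 0 < X) (hB : 0 < B) (hτ : 0 < τ)
    (hx₂ : 0 < x₂) (hk : 0 < k)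
    (hmono : ∀ i j, i < j → j < k → x i < x j)
    (hanti : ∀ i j, i < j → j < k → y j < y i)
    (hstrip : ∀ i < k, X < x i * y i ∧ x i * y i < X + B)
    (hx : ∀ i < k, B ≤ x i ∧ x i ≤ x₂)
    (hev : ∀ i < k, ∀ j < k, ∃ a b : ℤ, x j - x i = 2 * a ∧ y j - y i = 2 * b)
    (h1 : 2 * τ * √x₂ * (x₂ ^ 2 - X) ≤ x₂ ^ 2)
    (h2 : 400 * τ ^ 2 ≤ B) (h3 : 100 * B ≤ X) (h4 : 400 * B * √x₂ ≤ τ * X)
    (hR : 2 ≤ R) (hR4 : 17 * τ ^ 4 * X ≤ R ^ 4) :
    (k : ℝ) ≤ 1 + √x₂ / τ + 5 / 64 * R ^ 4 +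
      B / 2 * (R + 1 / 2 + 1 / 2 * Real.log R) := by
  classical
  set I := Finset.range (k - 1) with hI
  set I1 := I.filter (fun i => τ ≤ √(x (i + 1)) - √(x i)) with hI1
  set I2 := I.filter (fun i => ¬ τ ≤ √(x (i + 1)) - √(x i)) with hI2
  have hcard : I1.card + I2.card = k - 1 := by
    rw [hI1, hI2, Finset.card_filter_add_card_filter_not, hI, Finset.card_range]
  -- type I
  have hI1card : (I1.card : ℝ) ≤ √x₂ / τ := by
    rw [le_div_iff₀ hτ]
    have h5 : ∑ i ∈ I, (√(x (i + 1)) - √(x i)) = √(x (k - 1)) - √(x 0) :=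
      Finset.sum_range_sub (fun i => √(x i)) (k - 1)
    have h6 : ∑ i ∈ I1, (√(x (i + 1)) - √(x i)) ≤ ∑ i ∈ I, (√(x (i + 1)) - √(x i)) := by
      apply Finset.sum_le_sum_of_subset_of_nonneg (Finset.filter_subset _ _)
      intro i hi _
      rw [hI, Finset.mem_range] at hi
      have := Real.sqrt_le_sqrt (hmono i (i + 1) (by omega) (by omega)).le
      linarith
    have h7 : (I1.card : ℝ) * τ ≤ ∑ i ∈ I1, (√(x (i + 1)) - √(x i)) := by
      rw [← nsmul_eq_mul]
      apply Finset.card_nsmul_le_sum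
      intro i hi
      rw [hI1, Finset.mem_filter] at hi
      exact hi.2
    have h8 : √(x (k - 1)) ≤ √x₂ := Real.sqrt_le_sqrt (hx (k - 1) (by omega)).2
    have h9 : 0 ≤ √(x 0) := Real.sqrt_nonneg _
    linarith
  -- type II
  have huv : ∀ i, ∃ u v : ℕ, i + 1 < k →
      (1 ≤ u ∧ 1 ≤ v ∧ x (i + 1) - x i = 2 * u ∧ y i - y (i + 1) = 2 * v) := by
    intro i
    by_cases hi : i + 1 < k
    · obtain ⟨a, b, ha, hb⟩ := hev i (by omega) (i + 1) hi
      have h5 := hmono i (i + 1) (by omega) hi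
      have h6 := hanti i (i + 1) (by omega) hi
      have h7 : 0 < a := by
        have : (0 : ℝ) < a := by linarith
        exact_mod_cast this
      have h8 : b < 0 := by
        have : (b : ℝ) < 0 := by linarith
        exact_mod_cast this
      refine ⟨a.toNat, (-b).toNat, fun _ => ⟨by omega, by omega, ?_, ?_⟩⟩
      · rw [ha]
        have : ((a.toNat : ℤ) : ℝ) = a := by rw [Int.toNat_of_nonneg h7.le]
        rw [← this]
        norm_cast
      · have : (((-b).toNat : ℤ) : ℝ) = ((-b : ℤ) : ℝ) := by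
          rw [Int.toNat_of_nonneg (by omega)]
        have h9 : (((-b).toNat : ℕ) : ℝ) = ((-b : ℤ) : ℝ) := by
          rw [← this]
          norm_cast
        rw [h9]
        push_cast
        linarith
    · exact ⟨0, 0, fun h => absurd h hi⟩
  choose u v huv using huv
  set W : Finset (Σ _ : ℕ, ℕ) := (Icc 1 ⌊R / 2⌋₊).sigma
    (fun u => Icc u ⌊R ^ 4 / (16 * (u : ℝ) ^ 3)⌋₊) with hW
  have hmaps : ∀ i ∈ I2, (⟨u i, v i⟩ : Σ _ : ℕ, ℕ) ∈ W := by
    intro i hi
    rw [hI2, Finset.mem_filter, hI, Finset.mem_range] at hi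
    obtain ⟨hik, hII⟩ := hi
    push Not at hII
    obtain ⟨hu1, hv1, hu, hv⟩ := huv i (by omega)
    obtain ⟨g1, g2⟩ := gap_pair (x i) (y i) (x (i + 1)) (y (i + 1)) X B x₂ τ R hX hB hτ hx₂
      (hmono i (i + 1) (by omega) (by omega)) (hstrip i (by omega)) (hstrip (i + 1) (by omega))
      (hx i (by omega)).1 (hx (i + 1) (by omega)).2 h1 h2 h3 h4 hR4 hII
    rw [hu, hv] at g1 g2
    have g3 : u i ≤ v i := by
      have : (u i : ℝ) < v i + 1 := by linarith
      have : u i < v i + 1 := by exact_mod_cast this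
      omega
    have hu1' : (1 : ℝ) ≤ u i := by exact_mod_cast hu1
    have g3' : (u i : ℝ) ≤ v i := by exact_mod_cast g3
    have g4 : 16 * (u i : ℝ) ^ 3 * v i ≤ R ^ 4 := by
      have : (2 * (u i : ℝ)) ^ 3 * (2 * v i) = 16 * (u i : ℝ) ^ 3 * v i := by ring
      linarith
    have g5 : (2 * (u i : ℝ)) ^ 4 ≤ R ^ 4 := by
      refine le_trans ?_ g4
      have : (2 * (u i : ℝ)) ^ 4 = 16 * (u i : ℝ) ^ 3 * u i := by ring
      rw [this]
      exact mul_le_mul_of_nonneg_left g3' (by positivity)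
    have g6 : 2 * (u i : ℝ) ≤ R := le_of_pow_le_pow_left₀ (by norm_num) (by linarith) g5
    rw [hW, Finset.mem_sigma, Finset.mem_Icc, Finset.mem_Icc]
    refine ⟨⟨hu1, ?_⟩, g3, ?_⟩
    · rw [Nat.le_floor_iff (by linarith)]
      simp only
      linarith
    · rw [Nat.le_floor_iff (by positivity), le_div_iff₀ (by positivity)]
      simp only
      linarith
  have hfib : ∀ w ∈ W, ((I2.filter (fun i => (⟨u i, v i⟩ : Σ _ : ℕ, ℕ) = w)).card : ℝ) ≤
      1 + B / (4 * (w.2 : ℝ)) := by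
    rintro ⟨a, b⟩ hw
    rw [hW, Finset.mem_sigma, Finset.mem_Icc, Finset.mem_Icc] at hw
    simp only at hw
    have ha0 : (0 : ℝ) < a := by exact_mod_cast (by omega : 0 < a)
    have hb0 : (0 : ℝ) < b := by exact_mod_cast (by omega : 0 < b)
    set F := I2.filter (fun i => (⟨u i, v i⟩ : Σ _ : ℕ, ℕ) = ⟨a, b⟩) with hF
    have hFmem : ∀ i ∈ F, i + 1 < k ∧ u i = a ∧ v i = b := by
      intro i hi
      rw [hF, Finset.mem_filter, hI2, Finset.mem_filter, hI, Finset.mem_range] at hi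
      obtain ⟨⟨h5, _⟩, h6⟩ := hi
      simp only [Sigma.mk.injEq, heq_eq_eq] at h6
      exact ⟨by omega, h6⟩
    have hinj : Set.InjOn x (F : Set ℕ) := by
      intro i hi j hj hij
      have hi' := hFmem i hi
      have hj' := hFmem j hj
      rcases lt_trichotomy i j with h | h | h
      · have := hmono i j h (by omega)
        linarith
      · exact h
      · have := hmono j i h (by omega)
        linarith
    have hcF : F.card = (F.image x).card := (Finset.card_image_of_injOn hinj).symm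
    rw [hcF]
    have h5 := card_spaced (F.image x) (B / (2 * b)) (by positivity) ?_ ?_
    · refine h5.trans (le_of_eq ?_)
      simp only
      rw [div_div]
      ring_nf
    · intro s hs t ht
      rw [Finset.mem_image] at hs ht
      obtain ⟨i, hi, rfl⟩ := hs
      obtain ⟨j, hj, rfl⟩ := ht
      obtain ⟨c, _, hc, _⟩ := hev i (by have := hFmem i hi; omega) j
        (by have := hFmem j hj; omega)
      exact ⟨c, hc⟩
    · intro s hs t ht hst
      rw [Finset.mem_image] at hs ht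
      obtain ⟨i, hi, rfl⟩ := hs
      obtain ⟨j, hj, rfl⟩ := ht
      obtain ⟨hi1, hi2, hi3⟩ := hFmem i hi
      obtain ⟨hj1, hj2, hj3⟩ := hFmem j hj
      obtain ⟨_, _, hui, hvi⟩ := huv i hi1
      obtain ⟨_, _, huj, hvj⟩ := huv j hj1
      rw [hi2] at hui
      rw [hi3] at hvi
      rw [hj2] at huj
      rw [hj3] at hvj
      exact gap_same (x i) (y i) (x (i + 1)) (y (i + 1)) (x j) (y j) (x (j + 1)) (y (j + 1))
        (2 * a) (2 * b) X B (by positivity) (by positivity)
        (lt_of_lt_of_le hB (hx i (by omega)).1) hst hui huj hvi hvj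
        (hstrip i (by omega)) (hstrip (i + 1) (by omega)) (hstrip j (by omega))
        (hstrip (j + 1) (by omega))
  have hI2card : (I2.card : ℝ) ≤ 5 / 64 * R ^ 4 +
      B / 2 * (R + 1 / 2 + 1 / 2 * Real.log R) := by
    rw [Finset.card_eq_sum_card_fiberwise hmaps]
    push_cast
    refine (Finset.sum_le_sum hfib).trans ?_
    rw [hW, Finset.sum_sigma]
    exact W_sum R B hR hB
  have h5 : (k : ℝ) = 1 + ((k - 1 : ℕ) : ℝ) := by
    have : k = 1 + (k - 1) := by omega
    exact_mod_cast this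
  rw [h5, ← hcard]
  push_cast
  linarith

/-- **Gap lemma.**  Points `(x, y)` of a thin hyperbolic strip `X < x y < X + B` whose mutual
differences are even integers in both coordinates. -/
theorem gap_lemma (T : Finset (ℝ × ℝ)) (X B x₂ τ R : ℝ) (hX : 0 < X) (hB : 0 < B) (hτ : 0 < τ)
    (hx₂ : 0 < x₂)
    (hstrip : ∀ P ∈ T, X < P.1 * P.2 ∧ P.1 * P.2 < X + B)
    (hx : ∀ P ∈ T, B ≤ P.1 ∧ P.1 ≤ x₂) (hy : ∀ P ∈ T, B ≤ P.2)
    (heven : ∀ P ∈ T, ∀ Q ∈ T, ∃ a b : ℤ, Q.1 - P.1 = 2 * a ∧ Q.2 - P.2 = 2 * b)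
    (h1 : 2 * τ * √x₂ * (x₂ ^ 2 - X) ≤ x₂ ^ 2)
    (h2 : 400 * τ ^ 2 ≤ B) (h3 : 100 * B ≤ X) (h4 : 400 * B * √x₂ ≤ τ * X)
    (hR : 2 ≤ R) (hR4 : 17 * τ ^ 4 * X ≤ R ^ 4) :
    (T.card : ℝ) ≤ 1 + √x₂ / τ + 5 / 64 * R ^ 4 +
      B / 2 * (R + 1 / 2 + 1 / 2 * Real.log R) := by
  classical
  have hrhs : 0 ≤ 1 + √x₂ / τ + 5 / 64 * R ^ 4 +
      B / 2 * (R + 1 / 2 + 1 / 2 * Real.log R) := by
    have : 0 ≤ Real.log R := Real.log_nonneg (by linarith)
    positivity
  rcases Nat.eq_zero_or_pos T.card with h0 | hk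
  · rw [h0]
    simpa using hrhs
  -- the order structure
  have key : ∀ P ∈ T, ∀ Q ∈ T, P.1 < Q.1 → Q.2 < P.2 := by
    intro P hP Q hQ hlt
    by_contra hcon
    push Not at hcon
    obtain ⟨a, b, ha, hb⟩ := heven P hP Q hQ
    have h5 : 2 ≤ Q.1 - P.1 := by
      have h6 : (0 : ℝ) < a := by linarith
      have h7 : (0 : ℤ) < a := by exact_mod_cast h6
      have h8 : (1 : ℝ) ≤ a := by exact_mod_cast (by omega : (1 : ℤ) ≤ a)
      linarith
    have h9 := hx Q hQ
    have h10 := hy P hP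
    have h11 := hstrip P hP
    have h12 := hstrip Q hQ
    nlinarith
  have hinj : Set.InjOn Prod.fst (T : Set (ℝ × ℝ)) := by
    intro P hP Q hQ hPQ
    by_contra hne
    have hP' : P ∈ T := hP
    have hQ' : Q ∈ T := hQ
    obtain ⟨a, b, ha, hb⟩ := heven P hP' Q hQ'
    have hb0 : b ≠ 0 := by
      rintro rfl
      apply hne
      ext
      · exact hPQ
      · simp only [Int.cast_zero, mul_zero] at hb
        linarith
    have h9 := hx P hP'
    have h11 := hstrip P hP'
    have h12 := hstrip Q hQ'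
    rw [← hPQ] at h12
    rcases lt_or_gt_of_ne hb0 with h | h
    · have : (b : ℝ) ≤ -1 := by exact_mod_cast (by omega : b ≤ -1)
      nlinarith
    · have : (1 : ℝ) ≤ b := by exact_mod_cast (by omega : 1 ≤ b)
      nlinarith
  set s := T.image Prod.fst with hs
  have hscard : s.card = T.card := Finset.card_image_of_injOn hinj
  have hback : ∀ t ∈ s, ∃ P ∈ T, P.1 = t := by
    intro t ht
    rw [hs, Finset.mem_image] at ht
    exact ht
  have hf : ∀ i : ℕ, ∃ P : ℝ × ℝ, ∀ hi : i < T.card,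
      P ∈ T ∧ P.1 = s.orderEmbOfFin hscard ⟨i, hi⟩ := by
    intro i
    by_cases hi : i < T.card
    · obtain ⟨P, hP, hP1⟩ := hback _ (s.orderEmbOfFin_mem hscard ⟨i, hi⟩)
      exact ⟨P, fun _ => ⟨hP, hP1⟩⟩
    · exact ⟨(0, 0), fun h => absurd h hi⟩
  choose f hf using hf
  have hmono : ∀ i j, i < j → j < T.card → (f i).1 < (f j).1 := by
    intro i j hij hj
    rw [(hf i (by omega)).2, (hf j hj).2]
    exact (s.orderEmbOfFin hscard).strictMono hij
  exact gap_seq T.card (fun i => (f i).1) (fun i => (f i).2) X B x₂ τ R hX hB hτ hx₂ hk hmono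
    (fun i j hij hj => key _ (hf i (by omega)).1 _ (hf j hj).1 (hmono i j hij hj))
    (fun i hi => hstrip _ (hf i hi).1) (fun i hi => hx _ (hf i hi).1)
    (fun i hi j hj => heven _ (hf i hi).1 _ (hf j hj).1) h1 h2 h3 h4 hR hR4

end Pool.Agent.Helper42.TC
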